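import Pool.Agent.TH505.HQ.Ext4

/-!
`1/2`-flow-pairs and edge cuts with four edges.

Let `X` be a set of vertices of a graph `G` all of whose nontrivial cuts have at least three edges.
If `X` has a carving of width at most five and exactly four outgoing edges, then `X` can be replaced
by two adjacent vertices or by two parallel edges: there is a partition of the four outgoing edges
into two pairs such that each `1/2`-flow-pair of the graph that results if `X` is replaced by two new
vertices (one for each pair) that are adjacent, or else each `1/2`-flow-pair of the graph that
results if the two new vertices are not joined, extends to `G`, with the same second flow and the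
same support of the first flow outside `X`.

Proof. The closed family of sets of states used for `CarvingWidthFive` has seven sets for four ends.
One of them contains all states of two adjacent vertices and each of the other six contains all
states of two parallel edges.
-/

set_option autoImplicit false

namespace Pool.Agent.TH505.Out.FourCuts

open Pool.Agent.H160R2.HF Pool.Agent.TH505.OW Pool.Agent.TH505.HQ

/-- Let `G` be a finite graph all of whose nontrivial cuts have at least three edges and `T` a binary
tree whose leaves are labelled by different vertices of `G`, such that for each subtree at most five
edges of `G` leave the set of its labels, and exactly four edges leave the set `T.set` of all labels.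
Then there are `b : E → Bool`, equal to `true` at exactly two of these four edges, and `c : Bool`
such that every `1/2`-flow-pair of `spl G T.set b c` gives a `1/2`-flow-pair of `G`: at the edges
without both ends in `T.set`, the second flow is the same and the first flow is the same up to
sign. -/
theorem result (V E : Type) [Fintype V] [Fintype E] [DecidableEq V] [DecidableEq E]
    (G : OrGraph V E)
    (hC : ∀ Z : Set V, (∃ v, v ∈ Z) → (∃ v, v ∉ Z) → 3 ≤ (cut G.t G.h Z).card)
    (T : Tr V) (hN : T.Nodup) (hW : T.Width G.t G.h 5) (h4 : (cut G.t G.h T.set).card = 4) :
    ∃ (b : E → Bool) (c : Bool),
      ((cut G.t G.h T.set).filter (fun e => b e = true)).card = 2 ∧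
      ∀ φ₂ φ₄, (spl G T.set b c).IsHalfFlowPair φ₂ φ₄ →
        ∃ ψ₂ ψ₄, G.IsHalfFlowPair ψ₂ ψ₄ ∧
          ∀ e, ¬ (G.t e ∈ T.set ∧ G.h e ∈ T.set) →
            |ψ₂ e| = |φ₂ (some e)| ∧ ψ₄ e = φ₄ (some e) :=
  ext4 G hC T hN hW h4

end Pool.Agent.TH505.Out.FourCuts
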